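import Mathlib
import Pool.Agent.H590.NL.Stm

set_option autoImplicit false

noncomputable section

open MeasureTheory Filter Topology Set
open H590NL

namespace H726NLMO

lemma intg (c : ℝ) (hc : 0 < c) (C a : ℝ) (ha : 0 ≤ a) (g : ℝ → ℝ) (hg : Continuous g)
    (hb : ∀ s, 0 < s → |g s| ≤ C * Real.exp (-(c * s ^ 2))) :
    IntegrableOn (fun s => s ^ a * g s) (Ioi 0) := by
  have h1 : IntegrableOn (fun s : ℝ => C * (s ^ a * Real.exp (-c * s ^ 2))) (Ioi 0) :=
    (integrableOn_rpow_mul_exp_neg_mul_sq hc (by linarith)).const_mul C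
  refine h1.mono' ?_ ?_
  · exact ((Real.continuous_rpow_const ha).mul hg).aestronglyMeasurable
  · refine (ae_restrict_iff' measurableSet_Ioi).2 (Eventually.of_forall fun s hs => ?_)
    have hs0 : 0 < s := hs
    rw [Real.norm_eq_abs, abs_mul, abs_of_nonneg (Real.rpow_nonneg hs0.le a)]
    have h2 := hb s hs0
    rw [neg_mul]
    calc s ^ a * |g s| ≤ s ^ a * (C * Real.exp (-(c * s ^ 2))) :=
          mul_le_mul_of_nonneg_left h2 (Real.rpow_nonneg hs0.le a)
      _ = C * (s ^ a * Real.exp (-(c * s ^ 2))) := by ring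

lemma tend (c : ℝ) (hc : 0 < c) (C a : ℝ) (hC : 0 ≤ C) (g : ℝ → ℝ)
    (hb : ∀ s, 0 < s → |g s| ≤ C * Real.exp (-(c * s ^ 2))) :
    Tendsto (fun s => s ^ a * g s) atTop (𝓝 0) := by
  have h1 : Tendsto (fun s : ℝ => C * (s ^ a * Real.exp (-c * s))) atTop (𝓝 0) := by
    have h := (tendsto_rpow_mul_exp_neg_mul_atTop_nhds_zero a c hc).const_mul C
    rw [mul_zero] at h
    exact h
  refine squeeze_zero_norm' ?_ h1
  filter_upwards [eventually_ge_atTop (1 : ℝ)] with s hs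
  have hs0 : 0 < s := by linarith
  rw [Real.norm_eq_abs, abs_mul, abs_of_nonneg (Real.rpow_nonneg hs0.le a)]
  have h2 := hb s hs0
  have h3 : Real.exp (-(c * s ^ 2)) ≤ Real.exp (-c * s) := by
    apply Real.exp_le_exp.2
    have h4 : s ≤ s ^ 2 := by nlinarith
    have h5 := mul_le_mul_of_nonneg_left h4 hc.le
    linarith
  calc s ^ a * |g s| ≤ s ^ a * (C * Real.exp (-c * s)) :=
        mul_le_mul_of_nonneg_left (h2.trans (mul_le_mul_of_nonneg_left h3 hC))
          (Real.rpow_nonneg hs0.le a)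
    _ = C * (s ^ a * Real.exp (-c * s)) := by ring

theorem main (p : ℝ) (Z Z' : ℝ → ℝ) (hp1 : 1 < p) (hZ : ∀ s, HasDerivAt Z (Z' s) s)
    (hZ' : Continuous Z') (hpos : ∀ s, 0 < Z s) (C c : ℝ) (hc : 0 < c)
    (hb : ∀ s, Z s ≤ C * Real.exp (-(c * s ^ 2)) ∧ |Z' s| ≤ C * Real.exp (-(c * s ^ 2)))
    (hm : MonotoneOn (fun s => -(Z' s) / Z s * s ^ (1 - p)) (Ioi 0)) (y : ℝ) (hy : 0 ≤ y) :
    (∫ s in Ioi (0 : ℝ), Z s * Real.exp (-(y * s ^ p))) *
        (∫ s in Ioi (0 : ℝ), Z s * Real.exp (-(y * s ^ p)) * (s ^ p) ^ 2) ≤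
      (p + 1) * (∫ s in Ioi (0 : ℝ), Z s * Real.exp (-(y * s ^ p)) * s ^ p) ^ 2 := by
  have hp0 : 0 < p := by linarith
  have hC : 0 ≤ C := by
    have h1 := (hb 0).2
    have h2 : 0 ≤ C * Real.exp (-(c * 0 ^ 2)) := (abs_nonneg _).trans h1
    exact nonneg_of_mul_nonneg_left h2 (Real.exp_pos _)
  obtain ⟨E, hE⟩ : ∃ E : ℝ → ℝ, E = fun s => Real.exp (-(y * s ^ p)) := ⟨_, rfl⟩
  have hEs : ∀ s, Real.exp (-(y * s ^ p)) = E s := by
    intro s
    rw [hE]
  simp only [hEs]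
  have hEc : Continuous E := by
    rw [hE]
    exact Real.continuous_exp.comp ((continuous_const.mul (Real.continuous_rpow_const hp0.le)).neg)
  have hEp : ∀ s, 0 < E s := by
    intro s
    rw [← hEs]
    exact Real.exp_pos _
  have hE1 : ∀ s, 0 < s → E s ≤ 1 := by
    intro s hs
    rw [← hEs]
    apply Real.exp_le_one_iff.2
    have : 0 ≤ y * s ^ p := mul_nonneg hy (Real.rpow_nonneg hs.le p)
    linarith
  have hEd : ∀ s, 0 < s → HasDerivAt E (E s * -(y * (p * s ^ (p - 1)))) s := by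
    intro s hs
    have h1 := (((Real.hasDerivAt_rpow_const (p := p) (Or.inl hs.ne')).const_mul y).neg).exp
    rw [hE]
    exact h1
  have hZc : Continuous Z := continuous_iff_continuousAt.2 fun s => (hZ s).continuousAt
  have hg1 : Continuous fun s => Z s * E s := hZc.mul hEc
  have hg2 : Continuous fun s => Z' s * E s := hZ'.mul hEc
  have hb1 : ∀ s, 0 < s → |Z s * E s| ≤ C * Real.exp (-(c * s ^ 2)) := by
    intro s hs
    rw [abs_mul, abs_of_pos (hpos s), abs_of_pos (hEp s)]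
    calc Z s * E s ≤ Z s * 1 := mul_le_mul_of_nonneg_left (hE1 s hs) (hpos s).le
      _ = Z s := mul_one _
      _ ≤ _ := (hb s).1
  have hb2 : ∀ s, 0 < s → |Z' s * E s| ≤ C * Real.exp (-(c * s ^ 2)) := by
    intro s hs
    rw [abs_mul, abs_of_pos (hEp s)]
    calc |Z' s| * E s ≤ |Z' s| * 1 := mul_le_mul_of_nonneg_left (hE1 s hs) (abs_nonneg _)
      _ = |Z' s| := mul_one _
      _ ≤ _ := (hb s).2
  obtain ⟨Q, hQ⟩ : ∃ Q : ℝ → ℝ, Q = fun s => (-(s * Z' s) + p * y * s ^ p * Z s) * E s := ⟨_, rfl⟩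
  have hQs : ∀ s, Q s = (-(s * Z' s) + p * y * s ^ p * Z s) * E s := by
    intro s
    rw [hQ]
  have hpp : ∀ s : ℝ, 0 < s → s ^ (p - 1) * s = s ^ p := by
    intro s hs
    rw [← Real.rpow_add_one hs.ne', sub_add_cancel]
  have h2p : ∀ s : ℝ, 0 < s → s ^ (2 * p) = (s ^ p) ^ 2 := by
    intro s hs
    rw [← Real.rpow_natCast, ← Real.rpow_mul hs.le]
    congr 1
    push_cast
    ring
  -- integrability
  have i0 : IntegrableOn (fun s => Z s * E s) (Ioi 0) := by
    refine (intg c hc C 0 le_rfl _ hg1 hb1).congr_fun (fun s _ => ?_) measurableSet_Ioi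
    simp only [Real.rpow_zero, one_mul]
  have i1 : IntegrableOn (fun s => Z s * E s * s ^ p) (Ioi 0) := by
    refine (intg c hc C p hp0.le _ hg1 hb1).congr_fun (fun s _ => ?_) measurableSet_Ioi
    simp only
    ring
  have i2 : IntegrableOn (fun s => Z s * E s * (s ^ p) ^ 2) (Ioi 0) := by
    refine (intg c hc C (2 * p) (by linarith) _ hg1 hb1).congr_fun (fun s hs => ?_)
      measurableSet_Ioi
    simp only
    rw [h2p s hs]
    ring
  have iQ : IntegrableOn Q (Ioi 0) := by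
    have j1 := (intg c hc C 1 zero_le_one _ hg2 hb2).neg
    have j2 := (intg c hc C p hp0.le _ hg1 hb1).const_mul (p * y)
    refine (j1.add j2).congr_fun (fun s hs => ?_) measurableSet_Ioi
    simp only [Pi.add_apply, Pi.neg_apply, Real.rpow_one]
    rw [hQs]
    ring
  have iPQ : IntegrableOn (fun s => s ^ p * Q s) (Ioi 0) := by
    have j1 := (intg c hc C (p + 1) (by linarith) _ hg2 hb2).neg
    have j2 := (intg c hc C (2 * p) (by linarith) _ hg1 hb1).const_mul (p * y)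
    refine (j1.add j2).congr_fun (fun s hs => ?_) measurableSet_Ioi
    have hs0 : 0 < s := hs
    simp only [Pi.add_apply, Pi.neg_apply]
    rw [hQs, h2p s hs0, Real.rpow_add_one hs0.ne']
    ring
  -- integration by parts
  have ibp1 : ∫ s in Ioi (0 : ℝ), (Z s * E s - Q s) = 0 := by
    have h1 := integral_Ioi_of_hasDerivAt_of_tendsto (a := (0 : ℝ)) (m := (0 : ℝ))
      (f := fun s => s ^ (1 : ℝ) * (Z s * E s)) (f' := fun s => Z s * E s - Q s) ?_ ?_ (i0.sub iQ)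
      (tend c hc C 1 hC _ hb1)
    · rw [h1]
      simp
    · exact ((Real.continuous_rpow_const zero_le_one).mul hg1).continuousWithinAt
    · intro s hs
      have hs0 : 0 < s := hs
      have h2 := (hasDerivAt_id s).mul ((hZ s).mul (hEd s hs0))
      have h3 : (fun s : ℝ => s ^ (1 : ℝ) * (Z s * E s)) = fun s => id s * (Z s * E s) := by
        funext u
        rw [Real.rpow_one]
        rfl
      rw [h3]
      refine h2.congr_deriv ?_
      rw [hQs, ← hpp s hs0]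
      simp only [id, Pi.mul_apply]
      ring
  have ibp2 : ∫ s in Ioi (0 : ℝ), ((p + 1) * (Z s * E s * s ^ p) - s ^ p * Q s) = 0 := by
    have h1 := integral_Ioi_of_hasDerivAt_of_tendsto (a := (0 : ℝ)) (m := (0 : ℝ))
      (f := fun s => s ^ (p + 1) * (Z s * E s))
      (f' := fun s => (p + 1) * (Z s * E s * s ^ p) - s ^ p * Q s) ?_ ?_
      ((i1.const_mul (p + 1)).sub iPQ) (tend c hc C (p + 1) hC _ hb1)
    · rw [h1, Real.zero_rpow (by linarith)]
      simp
    · exact ((Real.continuous_rpow_const (by linarith)).mul hg1).continuousWithinAt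
    · intro s hs
      have hs0 : 0 < s := hs
      have h2 := (Real.hasDerivAt_rpow_const (x := s) (p := p + 1) (Or.inl hs0.ne')).mul
        ((hZ s).mul (hEd s hs0))
      refine h2.congr_deriv ?_
      rw [hQs, add_sub_cancel_right, Real.rpow_add_one hs0.ne', ← hpp s hs0]
      simp only [Pi.mul_apply]
      ring
  have e1 : ∫ s in Ioi (0 : ℝ), Q s = ∫ s in Ioi (0 : ℝ), Z s * E s := by
    rw [integral_sub i0 iQ] at ibp1
    linarith
  have e2 : ∫ s in Ioi (0 : ℝ), s ^ p * Q s =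
      (p + 1) * ∫ s in Ioi (0 : ℝ), Z s * E s * s ^ p := by
    rw [integral_sub (i1.const_mul (p + 1)) iPQ, integral_const_mul] at ibp2
    linarith
  -- positivity
  have p1 : 0 < ∫ s in Ioi (0 : ℝ), Z s * E s * s ^ p := by
    rw [setIntegral_pos_iff_support_of_nonneg_ae ?_ i1]
    · have h1 : Ioi (0 : ℝ) ⊆ Function.support (fun s => Z s * E s * s ^ p) ∩ Ioi 0 := by
        intro s hs
        have hs0 : 0 < s := hs
        exact ⟨(mul_pos (mul_pos (hpos s) (hEp s)) (Real.rpow_pos_of_pos hs0 p)).ne', hs⟩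
      refine lt_of_lt_of_le ?_ (measure_mono h1)
      rw [Real.volume_Ioi]
      exact ENNReal.coe_lt_top
    · refine (ae_restrict_iff' measurableSet_Ioi).2 (Eventually.of_forall fun s hs => ?_)
      have hs0 : 0 < s := hs
      exact (mul_pos (mul_pos (hpos s) (hEp s)) (Real.rpow_pos_of_pos hs0 p)).le
  have p2 : 0 < ∫ s in Ioi (0 : ℝ), Z s * E s * (s ^ p) ^ 2 := by
    rw [setIntegral_pos_iff_support_of_nonneg_ae ?_ i2]
    · have h1 : Ioi (0 : ℝ) ⊆ Function.support (fun s => Z s * E s * (s ^ p) ^ 2) ∩ Ioi 0 := by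
        intro s hs
        have hs0 : 0 < s := hs
        exact ⟨(mul_pos (mul_pos (hpos s) (hEp s))
          (pow_pos (Real.rpow_pos_of_pos hs0 p) 2)).ne', hs⟩
      refine lt_of_lt_of_le ?_ (measure_mono h1)
      rw [Real.volume_Ioi]
      exact ENNReal.coe_lt_top
    · refine (ae_restrict_iff' measurableSet_Ioi).2 (Eventually.of_forall fun s hs => ?_)
      have hs0 : 0 < s := hs
      exact (mul_pos (mul_pos (hpos s) (hEp s)) (pow_pos (Real.rpow_pos_of_pos hs0 p) 2)).le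
  obtain ⟨A0, hA0⟩ : ∃ A, A = ∫ s in Ioi (0 : ℝ), Z s * E s := ⟨_, rfl⟩
  obtain ⟨A1, hA1⟩ : ∃ A, A = ∫ s in Ioi (0 : ℝ), Z s * E s * s ^ p := ⟨_, rfl⟩
  obtain ⟨A2, hA2⟩ : ∃ A, A = ∫ s in Ioi (0 : ℝ), Z s * E s * (s ^ p) ^ 2 := ⟨_, rfl⟩
  rw [← hA0] at e1
  rw [← hA1] at e2 p1
  rw [← hA2] at p2
  rw [← hA0, ← hA1, ← hA2]
  have hκ : 0 < A2 / A1 := div_pos p2 p1
  obtain ⟨s0, hs0, hs0p⟩ : ∃ s0 : ℝ, 0 < s0 ∧ s0 ^ p = A2 / A1 :=
    ⟨(A2 / A1) ^ (1 / p), Real.rpow_pos_of_pos hκ _, by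
      rw [← Real.rpow_mul hκ.le, one_div_mul_cancel hp0.ne', Real.rpow_one]⟩
  obtain ⟨m0, hm0⟩ : ∃ m0 : ℝ, m0 = -(Z' s0) / Z s0 * s0 ^ (1 - p) + p * y := ⟨_, rfl⟩
  have hQm : ∀ s, 0 < s →
      Q s = (-(Z' s) / Z s * s ^ (1 - p) + p * y) * (Z s * E s * s ^ p) := by
    intro s hs
    have h1 : s ^ (1 - p) * s ^ p = s := by
      rw [← Real.rpow_add hs, sub_add_cancel, Real.rpow_one]
    have h2 := (hpos s).ne'
    have h3 : -(Z' s) / Z s * s ^ (1 - p) * (Z s * E s * s ^ p) =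
        (-(Z' s) / Z s * Z s) * E s * (s ^ (1 - p) * s ^ p) := by ring
    rw [add_mul, h3, h1, div_mul_cancel₀ _ h2, hQs]
    ring
  have hpt : ∀ s ∈ Ioi (0 : ℝ), 0 ≤ (s ^ p - A2 / A1) * (Q s - m0 * (Z s * E s * s ^ p)) := by
    intro s hs
    have hs' : 0 < s := hs
    have hW : 0 < Z s * E s * s ^ p :=
      mul_pos (mul_pos (hpos s) (hEp s)) (Real.rpow_pos_of_pos hs' p)
    rw [hQm s hs', hm0, ← hs0p]
    have h1 : (s ^ p - s0 ^ p) * ((-(Z' s) / Z s * s ^ (1 - p) + p * y) * (Z s * E s * s ^ p) -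
        (-(Z' s0) / Z s0 * s0 ^ (1 - p) + p * y) * (Z s * E s * s ^ p)) =
        (s ^ p - s0 ^ p) * (-(Z' s) / Z s * s ^ (1 - p) - -(Z' s0) / Z s0 * s0 ^ (1 - p)) *
          (Z s * E s * s ^ p) := by ring
    rw [h1]
    refine mul_nonneg ?_ hW.le
    rcases le_total s s0 with h | h
    · have h2 := hm hs (show s0 ∈ Ioi (0 : ℝ) from hs0) h
      have h3 : s ^ p ≤ s0 ^ p := Real.rpow_le_rpow hs'.le h hp0.le
      simp only at h2
      exact mul_nonneg_of_nonpos_of_nonpos (by linarith) (by linarith)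
    · have h2 := hm (show s0 ∈ Ioi (0 : ℝ) from hs0) hs h
      have h3 : s0 ^ p ≤ s ^ p := Real.rpow_le_rpow hs0.le h hp0.le
      simp only at h2
      exact mul_nonneg (by linarith) (by linarith)
  have hint := setIntegral_nonneg (μ := volume) measurableSet_Ioi hpt
  have hexp : ∫ s in Ioi (0 : ℝ), (s ^ p - A2 / A1) * (Q s - m0 * (Z s * E s * s ^ p)) =
      (p + 1) * A1 - A2 / A1 * A0 - m0 * A2 + m0 * (A2 / A1) * A1 := by
    have h1 : ∀ s : ℝ, (s ^ p - A2 / A1) * (Q s - m0 * (Z s * E s * s ^ p)) =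
        s ^ p * Q s - A2 / A1 * Q s - m0 * (Z s * E s * (s ^ p) ^ 2) +
          m0 * (A2 / A1) * (Z s * E s * s ^ p) := by
      intro s
      ring
    simp only [h1]
    have j1 : IntegrableOn (fun s => s ^ p * Q s - A2 / A1 * Q s) (Ioi 0) :=
      iPQ.sub (iQ.const_mul (A2 / A1))
    have j2 : IntegrableOn (fun s => s ^ p * Q s - A2 / A1 * Q s -
        m0 * (Z s * E s * (s ^ p) ^ 2)) (Ioi 0) := j1.sub (i2.const_mul m0)
    rw [integral_add j2 (i1.const_mul (m0 * (A2 / A1))), integral_sub j1 (i2.const_mul m0),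
      integral_sub iPQ (iQ.const_mul (A2 / A1)),
      integral_const_mul, integral_const_mul, integral_const_mul, e1, e2, ← hA1, ← hA2]
  rw [hexp] at hint
  have h5 : m0 * (A2 / A1) * A1 = m0 * A2 := by
    rw [mul_assoc, div_mul_cancel₀ _ p1.ne']
  rw [h5] at hint
  have h6 : A2 / A1 * A0 ≤ (p + 1) * A1 := by linarith
  have h7 := mul_le_mul_of_nonneg_right h6 p1.le
  have h8 : A2 / A1 * A0 * A1 = A0 * A2 := by
    rw [mul_right_comm, div_mul_cancel₀ _ p1.ne', mul_comm]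
  rw [h8] at h7
  calc A0 * A2 ≤ (p + 1) * A1 * A1 := h7
    _ = (p + 1) * A1 ^ 2 := by ring

theorem MO : S_MO := by
  intro p Z Z' hp1 _ hZ hZ' hpos hb hm y hy
  obtain ⟨C, c, hc, hb⟩ := hb
  exact main p Z Z' hp1 hZ hZ' hpos C c hc hb hm y hy

end H726NLMO
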